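import Mathlib

/-!
Ideal independent families, the dominating number and the ultrafilter number: definitions.
-/

set_option autoImplicit false

namespace Pool.Agent.H944Z.Smm

open Cardinal

/-- A family of infinite subsets of `ℕ` is ideal independent if for every member `A` and every
finite family `F` of other members, `A \ ⋃ F` is infinite. -/
def IdealIndependent (I : Set (Set ℕ)) : Prop :=
  (∀ A ∈ I, A.Infinite) ∧
    ∀ A ∈ I, ∀ F : Set (Set ℕ), F.Finite → F ⊆ I \ {A} → (A \ ⋃₀ F).Infinite

/-- An ideal independent family that is not a proper subset of another one. -/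
def MaximalIdealIndependent (I : Set (Set ℕ)) : Prop :=
  IdealIndependent I ∧ ∀ J : Set (Set ℕ), IdealIndependent J → I ⊆ J → J = I

/-- `s_mm`: the least cardinality of an infinite maximal ideal independent family. -/
noncomputable def smm : Cardinal.{0} :=
  sInf {c | ∃ I : Set (Set ℕ), MaximalIdealIndependent I ∧ I.Infinite ∧ #I = c}

/-- Every function is dominated, at all but finitely many arguments, by a member of `D`. -/
def Dominating (D : Set (ℕ → ℕ)) : Prop :=
  ∀ f : ℕ → ℕ, ∃ g ∈ D, {m | ¬ f m ≤ g m}.Finite

/-- The dominating number `d`. -/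
noncomputable def domNumber : Cardinal.{0} :=
  sInf {c | ∃ D : Set (ℕ → ℕ), Dominating D ∧ #D = c}

/-- `B ⊆ U` and every member of `U` contains, modulo a finite set, a member of `B`. -/
def IsBase (U : Ultrafilter ℕ) (B : Set (Set ℕ)) : Prop :=
  (∀ Y ∈ B, Y ∈ U) ∧ ∀ X ∈ U, ∃ Y ∈ B, (Y \ X).Finite

/-- The ultrafilter number `u`: the least size of a base of a non-principal ultrafilter on `ℕ`. -/
noncomputable def ultNumber : Cardinal.{0} :=
  sInf {c | ∃ (U : Ultrafilter ℕ) (B : Set (Set ℕ)),
    (∀ n : ℕ, U ≠ pure n) ∧ IsBase U B ∧ #B = c}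

end Pool.Agent.H944Z.Smm
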