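import Pool.Agent.H944Z.Smm.Defs

/-!
If `d = u = ℵ₁` then there is a maximal ideal independent family of size `ℵ₁`.
-/

set_option autoImplicit false

namespace Pool.Agent.H944Z.Smm

open Cardinal Set Filter

theorem infinite_of_mem {U : Ultrafilter ℕ} (hU : (U : Filter ℕ) ≤ cofinite) {X : Set ℕ}
    (hX : X ∈ U) : X.Infinite := by
  intro hf
  have h1 : Xᶜ ∈ U := hU hf.compl_mem_cofinite
  exact (Ultrafilter.compl_mem_iff_notMem.mp h1) hX

theorem mem_of_diff_finite {U : Ultrafilter ℕ} (hU : (U : Filter ℕ) ≤ cofinite) {X Y : Set ℕ}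
    (hX : X ∈ U) (h : (X \ Y).Finite) : Y ∈ U := by
  have h1 : (X \ Y)ᶜ ∈ U := hU h.compl_mem_cofinite
  refine mem_of_superset (inter_mem hX h1) ?_
  rintro x ⟨hx, hx'⟩
  by_contra hy
  exact hx' ⟨hx, hy⟩

/-- Pseudo-intersections of countable subfamilies of a non-principal ultrafilter. -/
theorem exists_pseudo {U : Ultrafilter ℕ} (hU : (U : Filter ℕ) ≤ cofinite) {S : Set (Set ℕ)}
    (hS : S.Countable) (hSU : ∀ X ∈ S, X ∈ U) :
    ∃ P : Set ℕ, P.Infinite ∧ P ∉ U ∧ ∀ X ∈ S, (P \ X).Finite := by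
  have hcg : (generate S).IsCountablyGenerated := ⟨⟨S, hS, rfl⟩⟩
  have hle : (U : Filter ℕ) ≤ atTop ⊓ generate S :=
    le_inf (by rw [← Nat.cofinite_eq_atTop]; exact hU) (le_generate_iff.mpr fun X hX => hSU X hX)
  have hne : NeBot (atTop ⊓ generate S : Filter ℕ) := neBot_of_le hle
  obtain ⟨x, hx⟩ := exists_seq_tendsto (atTop ⊓ generate S : Filter ℕ)
  have hx1 : Tendsto x atTop atTop := hx.mono_right inf_le_left
  have hx2 : Tendsto x atTop (generate S) := hx.mono_right inf_le_right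
  have hinf : (range x).Infinite := by
    intro hf
    obtain ⟨b, hb⟩ := hf.bddAbove
    obtain ⟨n, hn⟩ := (hx1.eventually (eventually_gt_atTop b)).exists
    exact absurd (hb ⟨n, rfl⟩) (not_le.mpr hn)
  have hfin : ∀ X ∈ S, (range x \ X).Finite := by
    intro X hX
    have h1 : ∀ᶠ n in atTop, x n ∈ X := hx2 (mem_generate_of_mem hX)
    rw [← Nat.cofinite_eq_atTop] at h1
    refine (Set.Finite.image x (eventually_cofinite.mp h1)).subset ?_
    rintro y ⟨⟨n, rfl⟩, hn⟩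
    exact ⟨n, hn, rfl⟩
  let e := hinf.natEmbedding
  have hinj : Function.Injective fun n => (e n : ℕ) := Subtype.val_injective.comp e.injective
  have h0 : (range fun n => (e (2 * n) : ℕ)).Infinite :=
    infinite_range_of_injective (hinj.comp fun a b h => by simpa using h)
  have h1 : (range fun n => (e (2 * n + 1) : ℕ)).Infinite :=
    infinite_range_of_injective (hinj.comp fun a b h => by simpa using h)
  by_cases hm : (range fun n => (e (2 * n) : ℕ)) ∈ U
  · refine ⟨_, h1, fun hm' => ?_, fun X hX => (hfin X hX).subset ?_⟩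
    · obtain ⟨y, ⟨a, ha⟩, ⟨b, hb⟩⟩ := U.nonempty_of_mem (inter_mem hm hm')
      have := hinj (ha.trans hb.symm)
      omega
    · rintro y ⟨⟨n, rfl⟩, hn⟩
      exact ⟨(e _).2, hn⟩
  · refine ⟨_, h0, hm, fun X hX => (hfin X hX).subset ?_⟩
    rintro y ⟨⟨n, rfl⟩, hn⟩
    exact ⟨(e _).2, hn⟩

/-- The copy of `U` on the infinite set `P`. -/
noncomputable def cp (U : Ultrafilter ℕ) (P : Set ℕ) : Ultrafilter ℕ := U.map (Nat.nth (· ∈ P))

theorem cp_le {U : Ultrafilter ℕ} (hU : (U : Filter ℕ) ≤ cofinite) {P : Set ℕ} (hP : P.Infinite) :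
    (cp U P : Filter ℕ) ≤ cofinite :=
  (map_mono hU).trans (Nat.nth_injective hP).tendsto_cofinite

theorem mem_cp {U : Ultrafilter ℕ} {P : Set ℕ} (hP : P.Infinite) : P ∈ cp U P := by
  change Nat.nth (· ∈ P) ⁻¹' P ∈ U
  exact mem_of_superset univ_mem fun n _ => Nat.nth_mem_of_infinite hP n

theorem exists_rec {T : Type} [LinearOrder T] [WellFoundedLT T] {X : Type}
    (R : (γ : T) → ((β : T) → β < γ → X) → X → Prop) (h : ∀ γ prev, ∃ x, R γ prev x) :
    ∃ F : T → X, ∀ γ, R γ (fun β _ => F β) (F γ) := by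
  choose step hstep using h
  refine ⟨(wellFounded_lt (α := T)).fix step, fun γ => ?_⟩
  rw [WellFounded.fix_eq]
  exact hstep _ _

section

variable {T : Type} [LinearOrder T] [WellFoundedLT T]

omit [WellFoundedLT T] in
theorem exists_gt_of_uncountable (hT : ∀ t : T, (Iio t).Countable) {S : Set T}
    (hS : ¬ S.Countable) (a : T) : ∃ γ ∈ S, a < γ := by
  by_contra hcon
  push Not at hcon
  refine hS (((hT a).insert a).mono fun γ hγ => ?_)
  rcases (hcon γ hγ).eq_or_lt with h | h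
  · exact Or.inl h
  · exact Or.inr h

omit [WellFoundedLT T] in
theorem exists_bound (hT : ∀ t : T, (Iio t).Countable) (hunc : ¬ (univ : Set T).Countable)
    {S : Set T} (hS : S.Countable) : ∃ ζ, ∀ s ∈ S, s < ζ := by
  by_contra hcon
  push Not at hcon
  refine hunc ((hS.biUnion fun s _ => (hT s).insert s).mono fun ζ _ => ?_)
  obtain ⟨s, hs, hle⟩ := hcon ζ
  refine mem_biUnion hs ?_
  rcases hle.eq_or_lt with h | h
  · exact Or.inl h
  · exact Or.inr h

/-- The set added at a stage with task `(η, ζ, t)`. -/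
def extra (b : T → Set ℕ) (G : T → ℕ → ℕ) (code : T → T → ℕ) (η ζ t γ : T)
    (P : (β : T) → β < γ → Set ℕ) : Set ℕ :=
  (b η ∪ ⋃ (β : T) (h : β < γ) (_ : β ≤ η),
    ⋂ ξ ∈ {ξ : T | ξ ≤ ζ ∧ code ζ ξ ≤ G t (code η β)}, Nat.nth (· ∈ P β h) '' b ξ)ᶜ

theorem main (hT : ∀ t : T, (Iio t).Countable) (hunc : ¬ (univ : Set T).Countable)
    {U : Ultrafilter ℕ} (hU : (U : Filter ℕ) ≤ cofinite) (b : T → Set ℕ) (hb : ∀ ξ, b ξ ∈ U)
    (hb' : ∀ X ∈ U, ∃ ξ, b ξ ⊆ X) (G : T → ℕ → ℕ) (hG : ∀ f : ℕ → ℕ, ∃ t, ∀ m, f m ≤ G t m)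
    (task : T → T × T × T) (htask : ∀ x, ¬ {γ | task γ = x}.Countable) :
    ∃ A : T → Set ℕ, Function.Injective A ∧ MaximalIdealIndependent (range A) := by
  have hcode : ∀ t : T, ∃ c : T → ℕ, InjOn c (Iic t) := fun t => by
    have : (Iic t).Countable := ((hT t).insert t).mono fun γ hγ => by
      rcases (mem_Iic.mp hγ).eq_or_lt with h | h
      · exact Or.inl h
      · exact Or.inr h
    exact countable_iff_exists_injOn.mp this
  choose code hcode using hcode
  obtain ⟨F, hF⟩ := exists_rec (T := T) (X := Set ℕ × Set ℕ)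
    (fun γ prev x => x.2 ∉ U ∧
      x.2 = x.1 ∪ extra b G code (task γ).1 (task γ).2.1 (task γ).2.2 γ (fun β h => (prev β h).1) ∧
      ((∀ β h, (prev β h).2 ∉ U) → x.1.Infinite ∧ (∀ η < γ, (x.1 \ b η).Finite) ∧
        ∀ β h, (x.1 \ ((prev β h).2)ᶜ).Finite)) (by
      intro γ prev
      have hex : extra b G code (task γ).1 (task γ).2.1 (task γ).2.2 γ
          (fun β h => (prev β h).1) ∉ U := by
        rw [extra, Ultrafilter.compl_mem_iff_notMem, not_not]
        exact mem_of_superset (hb _) subset_union_left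
      by_cases hprev : ∀ β h, (prev β h).2 ∉ U
      · have hcount : (b '' Iio γ ∪ range fun β : Iio γ => ((prev β.1 β.2).2)ᶜ).Countable := by
          have := (hT γ).to_subtype
          exact ((hT γ).image b).union (countable_range _)
        obtain ⟨P, hP, hPU, hPS⟩ := exists_pseudo hU hcount (by
          rintro X (⟨η, _, rfl⟩ | ⟨β, rfl⟩)
          · exact hb η
          · exact Ultrafilter.compl_mem_iff_notMem.mpr (hprev _ _))
        refine ⟨(P, P ∪ _), ?_, rfl, fun _ => ⟨hP, fun η hη => hPS _ (Or.inl ⟨η, hη, rfl⟩),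
          fun β h => hPS _ (Or.inr ⟨⟨β, h⟩, rfl⟩)⟩⟩
        rw [Ultrafilter.union_mem_iff]
        rintro (h | h)
        · exact hPU h
        · exact hex h
      · refine ⟨(∅, ∅ ∪ _), ?_, rfl, fun h => absurd h hprev⟩
        rw [empty_union]
        exact hex)
  set P : T → Set ℕ := fun γ => (F γ).1 with hPdef
  set A : T → Set ℕ := fun γ => (F γ).2 with hAdef
  have hAU : ∀ γ, A γ ∉ U := fun γ => (hF γ).1
  have hAeq : ∀ γ, A γ = P γ ∪
      extra b G code (task γ).1 (task γ).2.1 (task γ).2.2 γ (fun β _ => P β) :=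
    fun γ => (hF γ).2.1
  have hPinf : ∀ γ, (P γ).Infinite := fun γ => ((hF γ).2.2 fun β _ => hAU β).1
  have hPb : ∀ γ, ∀ η < γ, (P γ \ b η).Finite := fun γ => ((hF γ).2.2 fun β _ => hAU β).2.1
  have hPA : ∀ γ, ∀ β < γ, (P γ \ (A β)ᶜ).Finite := fun γ => ((hF γ).2.2 fun β _ => hAU β).2.2
  set p : T → Ultrafilter ℕ := fun γ => cp U (P γ) with hpdef
  have hp : ∀ γ, (p γ : Filter ℕ) ≤ cofinite := fun γ => cp_le hU (hPinf γ)
  have hPp : ∀ γ, P γ ∈ p γ := fun γ => mem_cp (hPinf γ)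
  have hAp : ∀ γ, A γ ∈ p γ := fun γ =>
    mem_of_superset (hPp γ) (by rw [hAeq]; exact subset_union_left)
  have hbp : ∀ γ, ∀ η < γ, b η ∈ p γ := fun γ η h =>
    mem_of_diff_finite (hp γ) (hPp γ) (hPb γ η h)
  have hlow : ∀ γ, ∀ β < γ, A β ∉ p γ := fun γ β h =>
    Ultrafilter.compl_mem_iff_notMem.mp (mem_of_diff_finite (hp γ) (hPp γ) (hPA γ β h))
  have hhigh : ∀ γ, ∀ β < γ, A γ ∉ p β := by
    intro γ β h
    rw [hAeq, Ultrafilter.union_mem_iff]
    rintro (h1 | h1)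
    · have h2 := mem_of_diff_finite (hp β) h1 (hPA γ β h)
      exact (Ultrafilter.compl_mem_iff_notMem.mp h2) (hAp β)
    · rw [extra, Ultrafilter.compl_mem_iff_notMem] at h1
      apply h1
      rcases le_or_gt β (task γ).1 with hle | hlt
      · refine mem_of_superset ?_ (subset_union_of_subset_right
          (subset_iUnion_of_subset β (subset_iUnion_of_subset h
            (subset_iUnion_of_subset hle subset_rfl))) _)
        have hfin : {ξ : T | ξ ≤ (task γ).2.1 ∧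
            code (task γ).2.1 ξ ≤ G (task γ).2.2 (code (task γ).1 β)}.Finite := by
          refine Set.Finite.of_finite_image (f := code (task γ).2.1)
            ((finite_Iic (G (task γ).2.2 (code (task γ).1 β))).subset ?_)
            ((hcode _).mono fun ξ hξ => hξ.1)
          rintro _ ⟨ξ, hξ, rfl⟩
          exact hξ.2
        exact (biInter_mem hfin).mpr fun ξ _ => image_mem_map (hb ξ)
      · exact mem_of_superset (hbp β _ hlt) subset_union_left
  have hne : ∀ γ β, β ≠ γ → A β ∉ p γ := fun γ β h => by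
    rcases lt_or_gt_of_ne h with h | h
    · exact hlow γ β h
    · exact hhigh β γ h
  have hcover : ∀ Z : Set ℕ, (∀ β, Z ∉ p β) → ∀ α, ∃ γ, α < γ ∧ Z ⊆ A γ := by
    intro Z hZ α
    have hZU : Zᶜ ∈ U := by
      rw [Ultrafilter.compl_mem_iff_notMem]
      intro h
      obtain ⟨η, hη⟩ := hb' Z h
      obtain ⟨γ, _, hγ⟩ := exists_gt_of_uncountable hT hunc η
      exact hZ γ (mem_of_superset (hbp γ η hγ) hη)
    obtain ⟨η, hη⟩ := hb' _ hZU
    have h1 : ∀ β, ∃ ξ, b ξ ⊆ Nat.nth (· ∈ P β) ⁻¹' Zᶜ := fun β =>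
      hb' _ (Ultrafilter.compl_mem_iff_notMem.mpr (hZ β))
    choose ξ hξ using h1
    have hcI : (Iic η).Countable := countable_iff_exists_injOn.mpr ⟨_, hcode η⟩
    obtain ⟨ζ, hζ⟩ := exists_bound hT hunc (hcI.image ξ)
    have h2 : ∀ n : ℕ, ∃ k : ℕ, ∀ β ≤ η, code η β = n → code ζ (ξ β) ≤ k := by
      intro n
      by_cases hn : ∃ β ≤ η, code η β = n
      · obtain ⟨β, hβ, hβn⟩ := hn
        refine ⟨code ζ (ξ β), fun β' hβ' h => ?_⟩
        rw [hcode η hβ' hβ (h.trans hβn.symm)]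
      · exact ⟨0, fun β hβ h => absurd ⟨β, hβ, h⟩ hn⟩
    choose f hf using h2
    obtain ⟨t, ht⟩ := hG f
    obtain ⟨γ, hγ, hαγ⟩ := exists_gt_of_uncountable hT (htask (η, ζ, t)) α
    refine ⟨γ, hαγ, ?_⟩
    rw [hAeq, show task γ = (η, ζ, t) from hγ]
    intro z hz
    refine Or.inr ?_
    rintro (h | h)
    · exact hη h hz
    · simp only [mem_iUnion] at h
      obtain ⟨β, _, hβ, h⟩ := h
      have h3 := mem_iInter₂.mp h (ξ β)
        ⟨(hζ _ ⟨β, hβ, rfl⟩).le, (hf _ β hβ rfl).trans (ht _)⟩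
      obtain ⟨n, hn, rfl⟩ := h3
      exact hξ β hn hz
  have hinj : Function.Injective A := fun β γ h => by
    by_contra hβγ
    exact hne γ β hβγ (h ▸ hAp γ)
  refine ⟨A, hinj, ⟨?_, ?_⟩, ?_⟩
  · rintro _ ⟨γ, rfl⟩
    exact infinite_of_mem (hp γ) (hAp γ)
  · rintro _ ⟨γ, rfl⟩ K hK hKI
    refine infinite_of_mem (hp γ) (inter_mem (hAp γ) (show (⋃₀ K)ᶜ ∈ (p γ : Filter ℕ) from ?_))
    rw [compl_sUnion]
    refine (sInter_mem (hK.image _)).mpr ?_
    rintro _ ⟨X, hX, rfl⟩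
    obtain ⟨⟨β, rfl⟩, hβ⟩ := hKI hX
    exact Ultrafilter.compl_mem_iff_notMem.mpr (hne γ β fun h => hβ (by rw [h]; rfl))
  · intro J hJ hIJ
    refine subset_antisymm (fun X hX => ?_) hIJ
    by_contra hXI
    by_cases hXp : ∀ β, X ∉ p β
    · obtain ⟨α⟩ : Nonempty T := by
        by_contra h
        rw [not_nonempty_iff] at h
        exact hunc (to_countable _)
      obtain ⟨γ, _, hγ⟩ := hcover X hXp α
      refine hJ.2 X hX {A γ} (finite_singleton _) ?_ ?_
      · rintro _ rfl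
        exact ⟨hIJ ⟨γ, rfl⟩, fun h => hXI ⟨γ, h⟩⟩
      · rw [sUnion_singleton, sdiff_eq_empty.mpr hγ]
        exact finite_empty
    · push Not at hXp
      obtain ⟨α, hα⟩ := hXp
      obtain ⟨γ, hαγ, hγ⟩ := hcover (A α \ X) (fun β h => by
        by_cases hβ : α = β
        · subst hβ
          exact (Ultrafilter.compl_mem_iff_notMem.mp
            (mem_of_superset h fun z hz => hz.2)) hα
        · exact hne β α hβ (mem_of_superset h sdiff_subset)) α
      refine hJ.2 (A α) (hIJ ⟨α, rfl⟩) {X, A γ} (toFinite _) ?_ ?_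
      · rintro _ (rfl | rfl)
        · exact ⟨hX, fun h => hXI ⟨α, h.symm⟩⟩
        · exact ⟨hIJ ⟨γ, rfl⟩, fun h => hαγ.ne' (hinj h)⟩
      · refine finite_empty.subset ?_
        rintro z ⟨hz, hz'⟩
        rw [sUnion_pair] at hz'
        exact hz' (by
          by_cases hzX : z ∈ X
          · exact Or.inl hzX
          · exact Or.inr (hγ ⟨hz, hzX⟩))

end

/-- No countably infinite ideal independent family is maximal. -/
theorem not_countable {I : Set (Set ℕ)} (hI : MaximalIdealIndependent I) (hinf : I.Infinite) :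
    ¬ I.Countable := by
  intro hc
  obtain ⟨a, ha⟩ := hc.exists_eq_range hinf.nonempty
  have h1 : ∀ k : ℕ, ∃ x, k < x ∧ ∀ j < k, x ∉ a j := by
    intro k
    have hfin : (a '' Iio k).Finite := (finite_Iio k).image a
    obtain ⟨B, hB, hB'⟩ := hinf.exists_notMem_finite hfin
    have h2 := hI.1.2 B hB (a '' Iio k) hfin (by
      rintro _ ⟨j, hj, rfl⟩
      exact ⟨ha ▸ ⟨j, rfl⟩, fun h => hB' ⟨j, hj, h⟩⟩)
    obtain ⟨x, hx, hkx⟩ := h2.exists_gt k
    exact ⟨x, hkx, fun j hj h => hx.2 ⟨a j, ⟨j, hj, rfl⟩, h⟩⟩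
  choose x hx hx' using h1
  have hXinf : (range x).Infinite := by
    intro hf
    obtain ⟨c, hc⟩ := hf.bddAbove
    exact absurd (hc ⟨c, rfl⟩) (not_le.mpr (hx c))
  have hXfin : ∀ B ∈ I, (range x ∩ B).Finite := by
    intro B hB
    obtain ⟨j, rfl⟩ : B ∈ range a := ha ▸ hB
    refine ((finite_Iic j).image x).subset ?_
    rintro _ ⟨⟨k, rfl⟩, hk⟩
    refine ⟨k, ?_, rfl⟩
    by_contra hkj
    exact hx' k j (not_le.mp hkj) hk
  have hXI : range x ∉ I := fun h => hXinf (by simpa using hXfin _ h)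
  have hJ : IdealIndependent (insert (range x) I) := by
    refine ⟨?_, ?_⟩
    · rintro B (rfl | hB)
      · exact hXinf
      · exact hI.1.1 B hB
    · rintro B (rfl | hB) K hK hKI
      · intro hfin
        apply hXinf
        have : (⋃ C ∈ K, range x ∩ C).Finite := hK.biUnion fun C hC => by
          rcases hKI hC with ⟨h | h, h'⟩
          · exact absurd h h'
          · exact hXfin C h
        refine (hfin.union this).subset fun z hz => ?_
        by_cases hzK : z ∈ ⋃₀ K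
        · obtain ⟨C, hC, hzC⟩ := hzK
          exact Or.inr (mem_biUnion hC ⟨hz, hzC⟩)
        · exact Or.inl ⟨hz, hzK⟩
      · intro hfin
        refine hI.1.2 B hB (K \ {range x}) (hK.subset sdiff_subset) ?_ ?_
        · rintro C ⟨hC, hC'⟩
          rcases hKI hC with ⟨h | h, h'⟩
          · exact absurd h hC'
          · exact ⟨h, h'⟩
        · refine (hfin.union (hXfin B hB)).subset ?_
          rintro z ⟨hz, hz'⟩
          by_cases hzX : z ∈ range x
          · exact Or.inr ⟨hzX, hz⟩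
          · refine Or.inl ⟨hz, ?_⟩
            rintro ⟨C, hC, hzC⟩
            exact hz' ⟨C, ⟨hC, fun h => hzX (h ▸ hzC)⟩, hzC⟩
  exact hXI (hI.2 _ hJ (subset_insert _ _) ▸ mem_insert _ _)

theorem exists_surj {T X : Type} [Nonempty X] (h : #X ≤ #T) :
    ∃ f : T → X, Function.Surjective f := by
  obtain ⟨e⟩ := (Cardinal.le_def _ _).mp h
  exact ⟨Function.invFun e, Function.invFun_surjective e.injective⟩

theorem smm_eq (hd : domNumber = ℵ₁) (hu : ultNumber = ℵ₁) : smm = ℵ₁ := by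
  have hne : (ℵ₁ : Cardinal.{0}) ≠ 0 := (aleph_pos 1).ne'
  have hinf : ℵ₀ ≤ (ℵ₁ : Cardinal.{0}) := aleph0_le_aleph 1
  obtain ⟨D, hD, hDc⟩ : ∃ D : Set (ℕ → ℕ), Dominating D ∧ #D = ℵ₁ := by
    have h := csInf_mem (s := {c | ∃ D : Set (ℕ → ℕ), Dominating D ∧ #D = c})
      ⟨_, univ, fun f => ⟨f, mem_univ _, by simp⟩, rfl⟩
    rw [← hd]
    exact h
  obtain ⟨U, B, hUn, hB, hBc⟩ : ∃ (U : Ultrafilter ℕ) (B : Set (Set ℕ)),
      (∀ n : ℕ, U ≠ pure n) ∧ IsBase U B ∧ #B = ℵ₁ := by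
    have hn : {c | ∃ (U : Ultrafilter ℕ) (B : Set (Set ℕ)),
        (∀ n : ℕ, U ≠ pure n) ∧ IsBase U B ∧ #B = c}.Nonempty := by
      by_contra h
      rw [not_nonempty_iff_eq_empty] at h
      apply hne
      rw [← hu, ultNumber, h]
      exact Cardinal.sInf_empty
    have h := csInf_mem hn
    rw [← hu]
    exact h
  have hU : (U : Filter ℕ) ≤ cofinite := by
    rcases U.le_cofinite_or_eq_pure with h | ⟨a, h⟩
    · exact h
    · exact absurd h (hUn a)
  let T := (ℵ₁ : Cardinal.{0}).ord.ToType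
  have hTc : #T = ℵ₁ := mk_ord_toType _
  have hT : ∀ t : T, (Iio t).Countable := fun t => by
    rw [countable_iff_lt_aleph_one]
    exact (mk_Iio_lt t (by simp [T])).trans_eq hTc
  have hunc : ¬ (univ : Set T).Countable := by
    rw [countable_iff_lt_aleph_one, mk_univ, hTc]
    exact lt_irrefl _
  have hDn : Nonempty D := mk_ne_zero_iff.mp (hDc ▸ hne)
  have hBn : Nonempty B := mk_ne_zero_iff.mp (hBc ▸ hne)
  have hTn : Nonempty T := mk_ne_zero_iff.mp (hTc ▸ hne)
  obtain ⟨g, hg⟩ := exists_surj (T := T) (X := D × ℕ) (by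
    rw [mk_prod, lift_id, lift_id, hDc, hTc, mk_nat, mul_eq_left hinf hinf aleph0_ne_zero])
  obtain ⟨c, hc⟩ := exists_surj (T := T) (X := B × ℕ) (by
    rw [mk_prod, lift_id, lift_id, hBc, hTc, mk_nat, mul_eq_left hinf hinf aleph0_ne_zero])
  obtain ⟨e⟩ : Nonempty (T ≃ (T × T × T) × T) := by
    rw [← Cardinal.eq]
    simp only [mk_prod, lift_id, hTc, mul_eq_self hinf]
  obtain ⟨A, hA, hmax⟩ := main hT hunc hU (fun t => (c t).1.1 ∩ Ici (c t).2)
    (fun t => inter_mem (hB.1 _ (c t).1.2) (hU (by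
      rw [Nat.cofinite_eq_atTop]; exact Ici_mem_atTop _)))
    (fun X hX => by
      obtain ⟨Y, hY, hfin⟩ := hB.2 X hX
      obtain ⟨k, hk⟩ := hfin.bddAbove
      obtain ⟨t, ht⟩ := hc (⟨Y, hY⟩, k + 1)
      refine ⟨t, ?_⟩
      rw [ht]
      rintro z ⟨hz, hz'⟩
      by_contra hzX
      have h1 : z ≤ k := hk ⟨hz, hzX⟩
      have h2 : k + 1 ≤ z := hz'
      omega)
    (fun t m => (g t).1.1 m + (g t).2)
    (fun f => by
      obtain ⟨d, hdD, hfin⟩ := hD f
      obtain ⟨k, hk⟩ := (hfin.image f).bddAbove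
      obtain ⟨t, ht⟩ := hg (⟨d, hdD⟩, k)
      refine ⟨t, fun m => ?_⟩
      rw [ht]
      by_cases hm : f m ≤ d m
      · exact hm.trans (Nat.le_add_right _ _)
      · exact (hk ⟨m, hm, rfl⟩).trans (Nat.le_add_left _ _))
    (fun t => (e t).1)
    (fun x hx => hunc (by
      refine (hx.image fun t => (e t).2).mono fun s _ => ?_
      exact ⟨e.symm (x, s), by simp, by simp⟩))
  have hAc : #(range A) = ℵ₁ := by rw [mk_range_eq _ hA, hTc]
  have hAinf : (range A).Infinite := by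
    rw [← infinite_coe_iff, infinite_iff, hAc]
    exact hinf
  refine le_antisymm (csInf_le' ⟨_, hmax, hAinf, hAc⟩) (le_csInf ⟨_, _, hmax, hAinf, rfl⟩ ?_)
  rintro _ ⟨I, hI, hI', rfl⟩
  have h := not_countable hI hI'
  rwa [countable_iff_lt_aleph_one, not_lt] at h

end Pool.Agent.H944Z.Smm
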